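import Pool.Agent.Y136.SumP.Dense

set_option autoImplicit false

open Pool.Agent.Results.MP_535799_an.NonSidon

namespace Pool.Agent.Results.MP_535799_an.InfiniteSumsets

/-- (1) Let `Q ⊆ ℤ` be such that every `f ∈ L¹` with spectrum in `Q` has square summable Fourier
coefficients. Then `Q` has property (P).
(2) If every integer has at most four representations as an (ordered) sum of two elements of `Q`,
then `Q` has property (P).
(3) If `A`, `B` are infinite sets of integers, then there is a set `Q ⊆ A + B` which is not a Sidon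
set and all of whose subsets have property (P).
(4) There is a set `Q` of positive integers, all of whose subsets have property (P), with at least
`k` elements in `[1, k³]` for every `k`. -/
theorem result :
    (∀ Q : Set ℤ, (∀ f : L1, (∀ n : ℤ, n ∉ Q → coeff f n = 0) →
      Summable (fun n => ‖coeff f n‖ ^ 2)) → PropertyP Q) ∧
    (∀ Q : Set ℤ, (∀ m : ℤ, {p : ℤ × ℤ | p.1 ∈ Q ∧ p.2 ∈ Q ∧ p.1 + p.2 = m}.encard ≤ 4) →
      PropertyP Q) ∧
    (∀ A B : Set ℤ, A.Infinite → B.Infinite →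
      ∃ Q : Set ℤ, (∀ n ∈ Q, ∃ x ∈ A, ∃ y ∈ B, n = x + y) ∧
        (∀ Q' ⊆ Q, PropertyP Q') ∧ ¬ IsSidonSet Q) ∧
    ∃ Q : Set ℤ, (∀ n ∈ Q, 0 < n) ∧ (∀ Q' ⊆ Q, PropertyP Q') ∧
      ∀ k : ℕ, ∃ S : Finset ℤ, (S : Set ℤ) ⊆ Q ∧ S.card = k ∧ ∀ n ∈ S, n ≤ (k : ℤ) ^ 3 :=
  ⟨Pool.Agent.Y136.SumP.main_sum.1, Pool.Agent.Y136.SumP.main_sum.2.1,
    Pool.Agent.Y136.SumP.main_sum.2.2, Pool.Agent.Y136.SumP.dense_P⟩

end Pool.Agent.Results.MP_535799_an.InfiniteSumsets
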